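import Pool.Agent.Q264.LK.Stm

/-!
# LK-UP1: components in a graph of girth larger than `R` with degrees at most `2 k`
-/

set_option autoImplicit false

open Finset
open scoped Classical

namespace Pool.Agent.Q162.LK264.UP1

open Pool.Agent.Q264.LK

variable {V : Type}

/-- the number of edges of an acyclic graph on a nonempty finite set -/
theorem edges_acyclic {W : Type} [Fintype W] [Nonempty W] (H : SimpleGraph W) [Fintype H.edgeSet] (hH : H.IsAcyclic) :
    H.edgeFinset.card + 1 ≤ Fintype.card W := by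
  obtain ⟨T, hT1, hT2⟩ := SimpleGraph.exists_maximal_isAcyclic_of_le_isAcyclic (G := (⊤ : SimpleGraph W))
    (H := H) le_top hH
  have hT3 : T.IsTree := by
    rw [SimpleGraph.isTree_iff_maximal_isAcyclic]
    refine ⟨inferInstance, hT2.prop.2, ?_⟩
    intro T' h1 h2
    exact hT2.2 ⟨le_top, h1⟩ h2
  have h := hT3.card_edgeFinset
  have h2 : H.edgeFinset.card ≤ T.edgeFinset.card := by
    apply Finset.card_le_card
    exact SimpleGraph.edgeFinset_mono hT1
  omega

theorem dd_eq [Fintype V] (G : SimpleGraph V) (C : Finset V) :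
    dd G C = 2 * (G.induce (C : Set V)).edgeFinset.card := by
  rw [← SimpleGraph.sum_degrees_eq_twice_card_edges]
  unfold dd
  rw [Finset.sum_subtype C (p := fun x => x ∈ (C : Set V)) (fun x => Iff.rfl)]
  apply Finset.sum_congr rfl
  intro v _
  rw [← SimpleGraph.card_neighborFinset_eq_degree]
  symm
  apply Finset.card_bij (fun (w : ↥(C : Set V)) _ => w.1)
  · intro w hw
    rw [SimpleGraph.mem_neighborFinset] at hw
    rw [Finset.mem_filter]
    exact ⟨w.2, hw⟩
  · intro a _ b _ h
    exact Subtype.ext h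
  · intro b hb
    rw [Finset.mem_filter] at hb
    refine ⟨⟨b, hb.1⟩, ?_, rfl⟩
    rw [SimpleGraph.mem_neighborFinset]
    exact hb.2

theorem acyclic_small [Fintype V] (G : SimpleGraph V) (C : Finset V) (R : ℕ) (hR : (R : ℕ∞) < G.egirth)
    (hC : C.card ≤ R) : (G.induce (C : Set V)).IsAcyclic := by
  intro v w hw
  have hinj : Function.Injective (SimpleGraph.Embedding.induce (C : Set V) : G.induce (C : Set V) ↪g G).toHom :=
    (SimpleGraph.Embedding.induce (C : Set V) : G.induce (C : Set V) ↪g G).injective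
  have h1 := (SimpleGraph.Walk.isCycle_map_iff_of_injective hinj (p := w)).2 hw
  have h2 := SimpleGraph.egirth_le_length h1
  rw [SimpleGraph.Walk.length_map] at h2
  have h3 : w.length ≤ C.card := by
    have h4 := hw.support_nodup
    have h5 := List.Nodup.length_le_card h4
    rw [List.length_tail, SimpleGraph.Walk.length_support] at h5
    have h6 : Fintype.card ↥(C : Set V) = C.card := by
      simp
    omega
  have h7 : (w.length : ℕ∞) ≤ (R : ℕ∞) := by exact_mod_cast h3.trans hC
  exact absurd (lt_of_lt_of_le hR (h2.trans h7)) (lt_irrefl _)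

theorem dd_small [Fintype V] (G : SimpleGraph V) (C : Finset V) (R : ℕ) (hR : (R : ℕ∞) < G.egirth)
    (hC : C.card ≤ R) (hne : C.Nonempty) : dd G C + 2 ≤ 2 * C.card := by
  have h1 := acyclic_small G C R hR hC
  have : Nonempty ↥(C : Set V) := by
    obtain ⟨x, hx⟩ := hne
    exact ⟨⟨x, hx⟩⟩
  have h6 : Fintype.card ↥(C : Set V) = C.card := by
    simp
  rw [dd_eq]
  have h2 := edges_acyclic (G.induce (C : Set V)) h1
  omega

theorem dd_large [Fintype V] (G : SimpleGraph V) (C : Finset V) (k : ℕ) (hk : ∀ v, dg G v ≤ 2 * k) :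
    dd G C ≤ 2 * k * C.card := by
  unfold dd
  calc ∑ v ∈ C, (C.filter fun w => G.Adj v w).card ≤ ∑ v ∈ C, 2 * k := by
        apply Finset.sum_le_sum
        intro v _
        refine le_trans ?_ (hk v)
        unfold dg
        apply Finset.card_le_card
        intro w hw
        rw [Finset.mem_filter] at hw ⊢
        exact ⟨Finset.mem_univ _, hw.2⟩
    _ = 2 * k * C.card := by
        rw [Finset.sum_const, smul_eq_mul, mul_comm]

/-! ### classes -/

theorem mem_cl [Fintype V] (G : SimpleGraph V) (B : Finset V) (v u : V) :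
    u ∈ cl G B v ↔ (res G B).Reachable v u := by
  unfold cl
  rw [Finset.mem_filter]
  exact ⟨fun h => h.2, fun h => ⟨Finset.mem_univ _, h⟩⟩

theorem reach_mem (G : SimpleGraph V) (B : Finset V) (v u : V) (h : (res G B).Reachable v u)
    (hv : v ∈ B) : u ∈ B := by
  obtain ⟨w⟩ := h
  induction w with
  | nil => exact hv
  | cons h p ih => exact ih h.2.2

theorem cl_sub [Fintype V] (G : SimpleGraph V) (B : Finset V) (v : V) (hv : v ∈ B) : cl G B v ⊆ B := by
  intro u hu
  rw [mem_cl] at hu
  exact reach_mem G B v u hu hv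

theorem cl_eq [Fintype V] (G : SimpleGraph V) (B : Finset V) (v u : V) (h : u ∈ cl G B v) :
    cl G B u = cl G B v := by
  rw [mem_cl] at h
  ext x
  rw [mem_cl, mem_cl]
  exact ⟨fun hx => h.trans hx, fun hx => h.symm.trans hx⟩

theorem self_mem [Fintype V] (G : SimpleGraph V) (B : Finset V) (v : V) : v ∈ cl G B v := by
  rw [mem_cl]

theorem fiber [Fintype V] (G : SimpleGraph V) (B : Finset V) (C : Finset V) (hC : C ∈ B.image (cl G B)) :
    (B.filter fun v => cl G B v = C) = C := by
  obtain ⟨x, hx, rfl⟩ := Finset.mem_image.1 hC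
  ext v
  rw [Finset.mem_filter]
  constructor
  · rintro ⟨_, h⟩
    rw [← h]
    exact self_mem G B v
  · intro h
    exact ⟨cl_sub G B x hx h, cl_eq G B x v h⟩

theorem sum_classes [Fintype V] (G : SimpleGraph V) (B : Finset V) (f : V → ℝ) :
    ∑ v ∈ B, f v = ∑ C ∈ B.image (cl G B), ∑ v ∈ C, f v := by
  rw [← Finset.sum_fiberwise_of_maps_to (g := cl G B) (t := B.image (cl G B))
    (fun v hv => Finset.mem_image_of_mem _ hv)]
  apply Finset.sum_congr rfl
  intro C hC
  rw [fiber G B C hC]

theorem dd_classes [Fintype V] (G : SimpleGraph V) (B : Finset V) :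
    (dd G B : ℝ) = ∑ C ∈ B.image (cl G B), (dd G C : ℝ) := by
  unfold dd
  push_cast
  rw [sum_classes G B]
  apply Finset.sum_congr rfl
  intro C hC
  apply Finset.sum_congr rfl
  intro v hv
  obtain ⟨x, hx, rfl⟩ := Finset.mem_image.1 hC
  have : (B.filter fun w => G.Adj v w) = ((cl G B x).filter fun w => G.Adj v w) := by
    ext w
    rw [Finset.mem_filter, Finset.mem_filter]
    constructor
    · rintro ⟨h1, h2⟩
      refine ⟨?_, h2⟩
      rw [mem_cl] at hv ⊢
      refine hv.trans ?_
      apply SimpleGraph.Adj.reachable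
      refine ⟨h2, ?_, h1⟩
      exact reach_mem G B x v hv hx
    · rintro ⟨h1, h2⟩
      exact ⟨cl_sub G B x hx h1, h2⟩
  rw [this]

theorem t_UP1 (hBR : S_BR) : S_UP1 := by
  intro V _ G k R hk hR hg hd B
  rw [hBR V G B]
  have hkR : (0 : ℝ) < k := by exact_mod_cast hk
  have hRR : (0 : ℝ) < R := by exact_mod_cast hR
  have key : ∀ C ∈ B.image (cl G B), (2 : ℝ) ≤ 2 * (C.card : ℝ) - (dd G C : ℝ) +
      2 * k / R * ∑ v ∈ C, ((cl G B v).card : ℝ) := by
    intro C hC
    have hsum : ∑ v ∈ C, ((cl G B v).card : ℝ) = (C.card : ℝ) * C.card := by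
      obtain ⟨x, hx, rfl⟩ := Finset.mem_image.1 hC
      rw [Finset.sum_congr rfl (fun v hv => by rw [cl_eq G B x v hv]), Finset.sum_const, nsmul_eq_mul]
    have hne : C.Nonempty := by
      obtain ⟨x, hx, rfl⟩ := Finset.mem_image.1 hC
      exact ⟨x, self_mem G B x⟩
    have hpos : (1 : ℝ) ≤ C.card := by
      exact_mod_cast hne.card_pos
    rw [hsum]
    by_cases hc : C.card ≤ R
    · have h1 := dd_small G C R hg hc hne
      have h2 : (dd G C : ℝ) + 2 ≤ 2 * C.card := by exact_mod_cast h1
      have h3 : (0 : ℝ) ≤ 2 * k / R * ((C.card : ℝ) * C.card) := by positivity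
      linarith
    · have h1 := dd_large G C k hd
      have h2 : (dd G C : ℝ) ≤ 2 * k * C.card := by exact_mod_cast h1
      have h4 : (R : ℝ) ≤ C.card := by
        have : R ≤ C.card := by omega
        exact_mod_cast this
      have h3 : 2 * (k : ℝ) * C.card ≤ 2 * k / R * ((C.card : ℝ) * C.card) := by
        have h5 : 2 * (k : ℝ) * C.card = 2 * k / R * ((R : ℝ) * C.card) := by
          field_simp
        rw [h5]
        apply mul_le_mul_of_nonneg_left _ (by positivity)
        exact mul_le_mul_of_nonneg_right h4 (by linarith)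
      linarith
  have hB : (B.card : ℝ) = ∑ C ∈ B.image (cl G B), (C.card : ℝ) := by
    have h := sum_classes G B (fun _ => (1 : ℝ))
    rw [Finset.sum_const, nsmul_eq_mul, mul_one] at h
    rw [h]
    apply Finset.sum_congr rfl
    intro C _
    rw [Finset.sum_const, nsmul_eq_mul, mul_one]
  rw [hB, dd_classes G B, sum_classes G B (fun v => ((cl G B v).card : ℝ)), Finset.mul_sum,
    Finset.mul_sum, ← Finset.sum_sub_distrib, ← Finset.sum_add_distrib]
  calc 2 * ((B.image (cl G B)).card : ℝ) = ∑ C ∈ B.image (cl G B), (2 : ℝ) := by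
        rw [Finset.sum_const, nsmul_eq_mul, mul_comm]
    _ ≤ _ := Finset.sum_le_sum key

end Pool.Agent.Q162.LK264.UP1
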